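import Pool.Agent.MWN.StmtsA

/-!
# MWN, row NKA: one letter identities in the congruence of a language, state `Fst`
-/

namespace Pool.Agent.MWN.H42

open Pool.Agent.Helper14_MV Pool.Agent.Helper2_MV Pool.Agent.MVO Pool.Agent.MWL Pool.Agent.MWS
  Pool.Agent.MWF

theorem sublist_flatMap {l1 l2 : List ℕ} (h : List.Sublist l1 l2) (f : ℕ → List ℕ) :
    List.Sublist (l1.flatMap f) (l2.flatMap f) := by
  induction h with
  | slnil => exact List.Sublist.refl _
  | cons a h ih =>
    rw [List.flatMap_cons]
    exact ih.trans (List.sublist_append_right _ _)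
  | cons_cons a h ih =>
    rw [List.flatMap_cons, List.flatMap_cons]
    exact (List.Sublist.refl _).append ih

theorem count_flatMap_ge (f : ℕ → List ℕ) (d x : ℕ) (l : List ℕ) :
    l.count x * (f x).count d ≤ (l.flatMap f).count d := by
  induction l with
  | nil => simp
  | cons a l ih =>
    rw [List.flatMap_cons, List.count_append]
    by_cases h : a = x
    · subst h
      rw [List.count_cons_self, Nat.add_mul]
      omega
    · rw [List.count_cons_of_ne h]
      omega

theorem mem_mw {k c : ℕ} {a : ℕ → ℕ} (h : c ∈ mw k a) : c ≠ 1 := by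
  unfold mw at h
  rcases mem_asm.1 h with h1 | ⟨j, _, h1⟩
  · omega
  · rw [List.eq_of_mem_replicate h1]
    omega

/-- the substitution without the letter `1` -/
def f0 (f : ℕ → List ℕ) : ℕ → List ℕ := fun c => if c = 1 then [] else f c

theorem mw_f0 (k : ℕ) (a : ℕ → ℕ) (f : ℕ → List ℕ) :
    (mw k a).flatMap (f0 f) = (mw k a).flatMap f := by
  apply flatMap_congr'
  intro c hc
  unfold f0
  rw [if_neg (mem_mw hc)]

theorem count_mw (k : ℕ) (a : ℕ → ℕ) : (mw k a).count 0 = deg k a := by
  unfold mw
  rw [count_asm (by intro h; omega)]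
  congr 1
  funext j
  simp

theorem blkOk_two {k : ℕ} {W : ℕ → List ℕ} (h : Two01 k W) : BlkOk k W := by
  intro j hj c hc hs
  rcases h j hj c hc with h1 | h1 <;> omega

/-- letters of the image of `0` -/
theorem letters {k k1 : ℕ} {c : ℕ → ℕ} {f : ℕ → List ℕ} {p q : List ℕ} {W : ℕ → List ℕ}
    (hd : 2 ≤ deg k1 c) (hW : Two01 k W) (he : p ++ (mw k1 c).flatMap f ++ q = asm k W) :
    ∀ d ∈ f 0, d = 0 ∨ d = 1 := by
  intro d hd0
  by_contra hn
  push Not at hn
  have h1 : 1 ≤ (f 0).count d := List.count_pos_iff.2 hd0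
  have h2 := count_flatMap_ge f d 0 (mw k1 c)
  rw [count_mw] at h2
  have h3 : 2 ≤ (asm k W).count d := by
    rw [← he, List.count_append, List.count_append]
    have : 2 ≤ deg k1 c * (f 0).count d := by nlinarith
    omega
  by_cases hs : 2 ≤ d ∧ d ≤ k + 1
  · rw [count_sep (blkOk_two hW) hs.1 hs.2] at h3
    omega
  · rw [count_asm hs] at h3
    have h4 : deg k (fun j => (W j).count d) = 0 := by
      unfold deg
      apply Finset.sum_eq_zero
      intro j hj
      rw [Finset.mem_range] at hj
      apply List.count_eq_zero_of_not_mem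
      intro hm
      rcases hW j (by omega) d hm with h5 | h5
      · exact hn.1 h5
      · exact hn.2 h5
    omega

theorem sat_z {n : ℕ} (h : Cd.z.sat n = true) : n = 0 := by
  simpa [Cd.sat] using h

theorem two_rep (k : ℕ) (c : ℕ → ℕ) : Two01 k (fun j => List.replicate (c j) 0) := by
  intro j _ x hx
  exact Or.inl (List.eq_of_mem_replicate hx)

theorem mem_rep_flatMap {n d : ℕ} {f : ℕ → List ℕ} :
    d ∈ (List.replicate n 0).flatMap f ↔ n ≠ 0 ∧ d ∈ f 0 := by
  rw [List.mem_flatMap]
  constructor
  · rintro ⟨a, ha, hd⟩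
    rw [List.mem_replicate] at ha
    rw [ha.2] at hd
    exact ⟨ha.1, hd⟩
  · rintro ⟨h1, h2⟩
    exact ⟨0, List.mem_replicate.2 ⟨h1, rfl⟩, h2⟩

theorem two_blk {k N : ℕ} {T : ℕ → List ℕ} {f : ℕ → List ℕ} {c : ℕ → ℕ} (hN : 2 ≤ N)
    (hT : ∀ t ≤ k, ∀ c ∈ T t, c = 0 ∨ c = 1 ∨ N ≤ c) (hf : ∀ d ∈ f 0, d = 0 ∨ d = 1) :
    Two01 k (fun t => (T t).flatMap (hv N f (fun j => List.replicate (c j) 0))) := by
  intro t ht d hd
  have hd : d ∈ (T t).flatMap (hv N f (fun j => List.replicate (c j) 0)) := hd
  rw [List.mem_flatMap] at hd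
  obtain ⟨x, hx, hd⟩ := hd
  unfold hv at hd
  rcases hT t ht x hx with h | h | h
  · rw [if_neg (by omega)] at hd
    rw [List.mem_singleton] at hd
    exact Or.inl (hd.trans h)
  · rw [if_neg (by omega)] at hd
    rw [List.mem_singleton] at hd
    exact Or.inr (hd.trans h)
  · rw [if_pos h] at hd
    exact hf d (mem_rep_flatMap.1 hd).2

/-- two copies of the image of `0` in a block -/
theorem two_copies {k1 N i : ℕ} {T : List ℕ} {f : ℕ → List ℕ} {c g : ℕ → ℕ}
    (hT2 : T.filter (fun c => decide (N ≤ c)) =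
      ((List.range (k1 + 1)).filter (fun j => decide (g j = i))).map (fun j => N + j))
    (hp : 2 ≤ psh k1 g c i) :
    List.Sublist (f 0 ++ f 0) (T.flatMap (hv N f (fun j => List.replicate (c j) 0))) := by
  have h1 : List.Sublist (T.filter (fun c => decide (N ≤ c))) T := List.filter_sublist
  have h2 := sublist_flatMap h1 (hv N f (fun j => List.replicate (c j) 0))
  refine List.Sublist.trans ?_ h2
  rw [hT2, List.flatMap_map]
  have h3 : (fun j => hv N f (fun j => List.replicate (c j) 0) (N + j)) =
      (fun j => (List.replicate (c j) 0).flatMap f) := by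
    funext j
    unfold hv
    rw [if_pos (by omega)]
    simp
  have h4 : (List.filter (fun j => decide (g j = i)) (List.range (k1 + 1))).flatMap
      (fun j => (List.replicate (c j) 0).flatMap f) =
      (pshB k1 g (fun j => List.replicate (c j) 0) i).flatMap f := by
    unfold pshB
    rw [List.flatMap_assoc]
  rw [h3, h4, pshB_replicate]
  obtain ⟨m, hm⟩ : ∃ m, psh k1 g c i = m + 1 + 1 := ⟨psh k1 g c i - 2, by omega⟩
  rw [hm, List.replicate_succ, List.replicate_succ, List.flatMap_cons, List.flatMap_cons,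
    ← List.append_assoc]
  exact List.sublist_append_left _ _

theorem step (h1 : NdcStmt) (h2 : NctStmt) (h3 : NkcStmt) (h4 : NsbStmt)
    {k k1 : ℕ} {A B : ℕ → Cd} {st : Bool} {i : ℕ} {c c' : ℕ → ℕ} (hO : Onl k i A B)
    (hz : ∀ j ≤ k1, (c j = 0 ↔ c' j = 0)) (hd : 2 ≤ deg k1 c) (hA : KapC k1 k c c' A)
    (hB : KapC k1 k c c' B) (f : ℕ → List ℕ) (p q : List ℕ)
    (hL : LG k A B (Fst st) i (p ++ (mw k1 c).flatMap f ++ q)) :
    LG k A B (Fst st) i (p ++ (mw k1 c').flatMap f ++ q) := by
  obtain ⟨W, he, hW, hsA, hsB, hS⟩ := hL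
  obtain ⟨W', he', hW', hsA', hsB'⟩ := h3 k k1 A B c c' f p q W hd hA hB hW hsA hsB he
  by_cases hik : i ≤ k
  swap
  · refine ⟨fun j => if j ≤ k then W' j else [], ?_, ?_, ?_, ?_, ?_⟩
    · rw [he']
      apply asm_congr
      intro j hj
      rw [if_pos hj]
    · intro j hj x hx
      have hx : x ∈ (if j ≤ k then W' j else []) := hx
      rw [if_pos hj] at hx
      exact hW' j hj x hx
    · intro j hj
      have := hsA' j hj
      unfold ty at this ⊢
      simp only [if_pos hj]
      exact this
    · intro j hj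
      have := hsB' j hj
      unfold ty at this ⊢
      simp only [if_pos hj]
      exact this
    · show Fst st (if i ≤ k then W' i else [])
      rw [if_neg hik]
      unfold Fst
      intro h
      have := h.length_le
      cases st <;> simp at this
  refine ⟨W', he', hW', hsA', hsB', ?_⟩
  have hl : ∀ d ∈ f 0, d = 0 ∨ d = 1 := letters hd hW he
  have hl0 : ∀ d ∈ f0 f 0, d = 0 ∨ d = 1 := hl
  have he0 : p ++ (asm k1 (fun j => List.replicate (c j) 0)).flatMap (f0 f) ++ q = asm k W := by
    rw [← he]
    congr 2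
    exact mw_f0 k1 c f
  obtain ⟨T, g, hg, hT1, hT2, hV⟩ := h1 k k1 (f0 f) p q (fun j => List.replicate (c j) 0) W hW
    (two_rep k1 c) (by
      intro d hd'
      rcases hd' with hd' | hd'
      · exact hl d hd'
      · simp [f0] at hd') he0
  have eW : ∀ t ≤ k, W t = (T t).flatMap (hv (k + k1 + 2) (f0 f)
      (fun j => List.replicate (c j) 0)) := by
    apply uniq (blkOk_two hW) (blkOk_two (two_blk (by omega) hT1 hl0))
    rw [← he0]
    exact hV _ (two_rep k1 c)
  have eW' : ∀ t ≤ k, W' t = (T t).flatMap (hv (k + k1 + 2) (f0 f)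
      (fun j => List.replicate (c' j) 0)) := by
    apply uniq (blkOk_two hW') (blkOk_two (two_blk (by omega) hT1 hl0))
    rw [← he', ← mw_f0]
    exact hV _ (two_rep k1 c')
  by_cases hZ : 0 ∈ f 0 ∧ 1 ∈ f 0
  · exfalso
    have hgi : ∀ j ≤ k1, c j ≠ 0 → g j = i := by
      intro j hj hcj
      have hgk := hg.le j hj
      have hpos : 0 < psh k1 g c (g j) := by
        unfold psh
        apply Finset.sum_pos'
        · intro x _
          exact Nat.zero_le _
        · exact ⟨j, Finset.mem_range.2 (by omega), by rw [if_pos rfl]; omega⟩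
      have hcnt : ∀ d, d ∈ f 0 → 1 ≤ (W (g j)).count d := by
        intro d hdm
        obtain ⟨r, hr⟩ := h2 k1 (k + k1 + 2) (f0 f) (T (g j)) g (g j) (hT2 (g j) hgk) d
        have h5 := hr _ (two_rep k1 c)
        rw [← eW (g j) hgk] at h5
        have e0 : ty (fun j => List.replicate (c j) 0) 0 = c := by
          funext x
          simp [ty]
        rw [e0] at h5
        have h6 : 1 ≤ (f0 f 0).count d := List.count_pos_iff.2 hdm
        have h7 : 1 ≤ (f0 f 0).count d * psh k1 g c (g j) := by nlinarith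
        omega
      by_contra hne
      rcases hO (g j) hgk hne with h5 | h5
      · have h6 := hsA (g j) hgk
        rw [h5] at h6
        have h7 := sat_z h6
        have h8 := hcnt 0 hZ.1
        unfold ty at h7
        omega
      · have h6 := hsB (g j) hgk
        rw [h5] at h6
        have h7 := sat_z h6
        have h8 := hcnt 1 hZ.2
        unfold ty at h7
        omega
    have hps : psh k1 g c i = deg k1 c := by
      unfold psh deg
      apply Finset.sum_congr rfl
      intro j hj
      rw [Finset.mem_range] at hj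
      by_cases hcj : c j = 0
      · rw [hcj]
        simp
      · rw [if_pos (hgi j (by omega) hcj)]
    have h5 := two_copies (f := f0 f) (c := c) (hT2 i hik) (by rw [hps]; exact hd)
    rw [← eW i hik] at h5
    apply hS
    refine List.Sublist.trans ?_ h5
    have h6 : List.Sublist [0] (f0 f 0) := List.singleton_sublist.2 hZ.1
    have h7 : List.Sublist [1] (f0 f 0) := List.singleton_sublist.2 hZ.2
    cases st
    · exact h7.append h6
    · exact h6.append h7
  · have hN1 : ∀ x ∈ T i, ∀ d e : ℕ, (d = 0 ∧ e = 1 ∨ d = 1 ∧ e = 0) →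
        ((d ∈ hv (k + k1 + 2) (f0 f) (fun j => List.replicate (c j) 0) x ↔
          d ∈ hv (k + k1 + 2) (f0 f) (fun j => List.replicate (c' j) 0) x) ∧
        (e ∈ hv (k + k1 + 2) (f0 f) (fun j => List.replicate (c j) 0) x ↔
          e ∈ hv (k + k1 + 2) (f0 f) (fun j => List.replicate (c' j) 0) x)) ∧
        (List.Sublist [d, e] (hv (k + k1 + 2) (f0 f) (fun j => List.replicate (c j) 0) x) ↔
          List.Sublist [d, e] (hv (k + k1 + 2) (f0 f) (fun j => List.replicate (c' j) 0) x)) := by
      intro x hx d e hde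
      by_cases hxN : k + k1 + 2 ≤ x
      · have h5 : x ∈ (T i).filter (fun c => decide (k + k1 + 2 ≤ c)) := by
          rw [List.mem_filter]
          exact ⟨hx, by rw [decide_eq_true_iff]; exact hxN⟩
        rw [hT2 i hik, List.mem_map] at h5
        obtain ⟨j, hj, hxj⟩ := h5
        rw [List.mem_filter, List.mem_range] at hj
        have e1 : ∀ c : ℕ → ℕ, hv (k + k1 + 2) (f0 f) (fun j => List.replicate (c j) 0) x =
            (List.replicate (c j) 0).flatMap (f0 f) := by
          intro c
          unfold hv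
          rw [if_pos hxN, ← hxj]
          simp
        rw [e1 c, e1 c']
        have hzj := hz j (by omega)
        have key : ∀ n : ℕ, ¬ List.Sublist [d, e] ((List.replicate n 0).flatMap (f0 f)) := by
          intro n hs
          have hd1 : d ∈ (List.replicate n 0).flatMap (f0 f) := hs.subset (by simp)
          have he1 : e ∈ (List.replicate n 0).flatMap (f0 f) := hs.subset (by simp)
          have hd2 : d ∈ f 0 := (mem_rep_flatMap.1 hd1).2
          have he2 : e ∈ f 0 := (mem_rep_flatMap.1 he1).2
          apply hZ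
          rcases hde with ⟨h6, h7⟩ | ⟨h6, h7⟩
          · rw [h6] at hd2
            rw [h7] at he2
            exact ⟨hd2, he2⟩
          · rw [h6] at hd2
            rw [h7] at he2
            exact ⟨he2, hd2⟩
        refine ⟨⟨?_, ?_⟩, iff_of_false (key _) (key _)⟩
        · rw [mem_rep_flatMap, mem_rep_flatMap]
          exact and_congr_left' (not_congr hzj)
        · rw [mem_rep_flatMap, mem_rep_flatMap]
          exact and_congr_left' (not_congr hzj)
      · have e1 : ∀ c : ℕ → ℕ, hv (k + k1 + 2) (f0 f) (fun j => List.replicate (c j) 0) x =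
            [x] := by
          intro c
          unfold hv
          rw [if_neg hxN]
        rw [e1 c, e1 c']
        exact ⟨⟨Iff.rfl, Iff.rfl⟩, Iff.rfl⟩
    unfold Fst at hS ⊢
    rw [eW' i hik]
    rw [eW i hik] at hS
    cases st
    · exact fun h => hS ((h4 (T i) _ _ 1 0
        (fun x hx => hN1 x hx 1 0 (Or.inr ⟨rfl, rfl⟩))).2 h)
    · exact fun h => hS ((h4 (T i) _ _ 0 1
        (fun x hx => hN1 x hx 0 1 (Or.inl ⟨rfl, rfl⟩))).2 h)

theorem good_symm {C : Cd} {p q : ℕ} (h : C.good p q = true) : C.good q p = true := by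
  cases C <;> simp only [Cd.good, Bool.or_eq_true, Bool.and_eq_true, beq_iff_eq] at h ⊢
  · exact h.symm
  · rcases h with h | h
    · exact Or.inl h.symm
    · exact Or.inr ⟨h.2, h.1⟩
  · exact h.symm
  · rcases h with h | h
    · exact Or.inl h.symm
    · exact Or.inr ⟨h.2, h.1⟩

theorem kap_symm {k1 k : ℕ} {c c' : ℕ → ℕ} {A : ℕ → Cd} (h : KapC k1 k c c' A) :
    KapC k1 k c' c A := by
  intro f hf
  rcases h f hf with h1 | h1
  · exact Or.inl ⟨h1.2, h1.1⟩
  · exact Or.inr (fun j hj => good_symm (h1 j hj))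

theorem nka (h1 : NdcStmt) (h2 : NctStmt) (h3 : NkcStmt) (h4 : NsbStmt) : NkaStmt := by
  intro k k1 A B st i c c' hO hz hd hd' hA hB
  apply RR_gaml
  intro f p q
  constructor
  · exact step h1 h2 h3 h4 hO hz hd hA hB f p q
  · exact step h1 h2 h3 h4 hO (fun j hj => (hz j hj).symm) hd' (kap_symm hA) (kap_symm hB) f p q

end Pool.Agent.MWN.H42
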