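import Pool.Agent.MWN.StmtsH

/-!
# MWN, row NCO: collapse of the states
-/

namespace Pool.Agent.MWN.H42.Nco

open Pool.Agent.Helper14_MV Pool.Agent.Helper2_MV Pool.Agent.MVO Pool.Agent.MWL Pool.Agent.MWS
  Pool.Agent.MWF

theorem blkOk_two {k : ℕ} {W : ℕ → List ℕ} (h : Two01 k W) : BlkOk k W := by
  intro j hj c hc hs
  rcases h j hj c hc with h1 | h1 <;> omega

/-- the word with `c c` at both ends of block `j` -/
def up (U : ℕ → List ℕ) (c j : ℕ) : ℕ → List ℕ :=
  Function.update U j (c :: c :: (U j ++ [c, c]))

theorem up_same (U : ℕ → List ℕ) (c j : ℕ) : up U c j j = c :: c :: (U j ++ [c, c]) := by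
  unfold up
  rw [Function.update_self]

theorem up_ne (U : ℕ → List ℕ) (c : ℕ) {j t : ℕ} (h : t ≠ j) : up U c j t = U t := by
  unfold up
  rw [Function.update_of_ne h]

theorem mem_up {U : ℕ → List ℕ} {c j t x : ℕ} (h : x ∈ up U c j t) : x = c ∨ x ∈ U t := by
  by_cases htj : t = j
  · subst htj
    rw [up_same] at h
    simp only [List.mem_cons, List.mem_append, List.not_mem_nil, or_false] at h
    rcases h with h | h | h | h | h
    · exact Or.inl h
    · exact Or.inl h
    · exact Or.inr h
    · exact Or.inl h
    · exact Or.inl h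
  · rw [up_ne U c htj] at h
    exact Or.inr h

theorem count_up (U : ℕ → List ℕ) (c j t x : ℕ) : (U t).count x ≤ (up U c j t).count x := by
  by_cases htj : t = j
  · subst htj
    rw [up_same]
    simp only [List.count_cons, List.count_append]
    omega
  · rw [up_ne U c htj]

theorem two_up {k : ℕ} {U : ℕ → List ℕ} {c j : ℕ} (hc : c = 0 ∨ c = 1) (h : Two01 k U) :
    Two01 k (up U c j) := by
  intro t ht x hx
  rcases mem_up hx with h1 | h1
  · rw [h1]
    exact hc
  · exact h t ht x h1

theorem ok_up {k : ℕ} {U : ℕ → List ℕ} {c j : ℕ} (hc : c = 0 ∨ c = 1) (hj : j ≤ k)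
    (h : Two01 k U) (hU : OkB k U) : OkB k (up U c j) := by
  refine ⟨blkOk_two (two_up hc h), ?_⟩
  intro t ht x hx
  by_cases hxc : x = c
  · have h1 : (up U c j j).count x ≤ deg k (fun t => (up U c j t).count x) := by
      unfold deg
      exact Finset.single_le_sum (f := fun t => (up U c j t).count x)
        (fun _ _ => Nat.zero_le _) (Finset.mem_range.2 (by omega))
    have h2 : 2 ≤ (up U c j j).count x := by
      rw [up_same, hxc, List.count_cons_self, List.count_cons_self]
      omega
    omega
  · have h1 : x ∈ U t := by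
      rcases mem_up hx with h2 | h2
      · exact absurd h2 hxc
      · exact h2
    have h2 := hU.ml t ht x h1
    refine le_trans h2 ?_
    unfold deg
    exact Finset.sum_le_sum (fun t _ => count_up U c j t x)

theorem sh_up {k : ℕ} {U V : ℕ → List ℕ} {c j x : ℕ} (h : Sh k (ty U x) (ty V x)) :
    Sh k (ty (up U c j) x) (ty (up V c j) x) := by
  intro t ht
  have h1 := h t ht
  unfold ty at h1 ⊢
  by_cases htj : t = j
  · subst htj
    simp only [up_same, List.count_cons, List.count_append, List.count_nil] at h1 ⊢
    omega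
  · simp only [up_ne _ c htj]
    exact h1

theorem both {l : List ℕ} {c d : ℕ} (h : d ∈ l) :
    List.Sublist [c, d] (c :: c :: (l ++ [c, c])) ∧
      List.Sublist [d, c] (c :: c :: (l ++ [c, c])) := by
  have h1 : List.Sublist [d] l := List.singleton_sublist.2 h
  constructor
  · refine List.Sublist.cons_cons _ (List.Sublist.cons _ ?_)
    exact h1.trans (List.sublist_append_left _ _)
  · refine List.Sublist.cons _ (List.Sublist.cons _ ?_)
    have h2 : List.Sublist [c] [c, c] := by simp
    exact h1.append h2

theorem nfst {l : List ℕ} {c d : ℕ} (hcd : c = 0 ∧ d = 1 ∨ c = 1 ∧ d = 0) (h : d ∈ l)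
    (st : Bool) : ¬ Fst st (c :: c :: (l ++ [c, c])) := by
  intro hf
  apply hf
  obtain ⟨h1, h2⟩ := both (c := c) h
  rcases hcd with ⟨h3, h4⟩ | ⟨h3, h4⟩
  · subst h3
    subst h4
    cases st
    · exact h2
    · exact h1
  · subst h3
    subst h4
    cases st
    · exact h1
    · exact h2

theorem nco (hABS : MWL.AbsStmt) (hTRN : MWL.TrnStmt) (hNHB : NhbStmt) (hNIS : NisStmt) :
    NcoStmt := by
  intro β hHB hI k U V c d j hU hV hUT hVT hs0 hs1 hcd hj hd hdU hdV hAb
  have hc : c = 0 ∨ c = 1 := by
    rcases hcd with h | h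
    · exact Or.inl h.1
    · exact Or.inr h.1
  have hLR := (hNHB β hHB hI).2.2.2.1
  have hsc : Sh k (ty U c) (ty V c) := by
    rcases hc with h | h
    · rw [h]; exact hs0
    · rw [h]; exact hs1
  have hsd : Sh k (ty U d) (ty V d) := by
    rcases hcd with h | h
    · rw [h.2]; exact hs1
    · rw [h.2]; exact hs0
  have hNq : Nq 1 k (wo j (ty U c)) (wo j (ty V c)) := by
    intro t ht
    unfold wo
    by_cases htj : t = j
    · left
      simp [htj]
    · rcases hsc t ht with h | ⟨h1, h2⟩
      · left
        simp only [if_neg htj]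
        exact h
      · right
        refine ⟨⟨?_, t, le_rfl, ?_⟩, ⟨?_, t, le_rfl, ?_⟩, Nat.modEq_one⟩
        · simp only [if_neg htj]
          omega
        · simp only [if_neg htj]
          exact h1
        · simp only [if_neg htj]
          omega
        · simp only [if_neg htj]
          exact h2
  have hab := (hABS 1 (FC.ofFIC β) hLR k (wo j (ty U c))).2 _ hNq
  have hAbV := ((hTRN 1 (FC.ofFIC β) k (wo j (ty U c)) j).1 _ hab).1 hAb
  have s1 : RR β (asm k U) (asm k (up U c j)) := hNIS β hHB hI k U c j hU hUT hc hj hdU hAb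
  have s2 : RR β (asm k V) (asm k (up V c j)) := hNIS β hHB hI k V c j hV hVT hc hj hdV hAbV
  have hdV' : d ∈ V j := by
    have h1 := hsd j hj
    unfold ty at h1
    have h2 : 0 < (U j).count d := List.count_pos_iff.2 hd
    exact List.count_pos_iff.1 (by omega)
  have s3 : RR β (asm k (up U c j)) (asm k (up V c j)) := by
    apply hHB.hst k _ _ (ok_up hc hj hUT hU) (ok_up hc hj hVT hV) (two_up hc hUT)
      (two_up hc hVT) (sh_up hs0) (sh_up hs1)
    intro i hi hno
    have hij : i = j := by
      by_contra hne
      have h1 := hno j hj (fun h => hne h.symm)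
      have hcm : c ∈ up U c j j := by
        rw [up_same]
        exact List.mem_cons_self ..
      have hdm : d ∈ up U c j j := by
        rw [up_same]
        exact List.mem_cons_of_mem _ (List.mem_cons_of_mem _ (List.mem_append_left _ hd))
      rcases hcd with ⟨h3, h4⟩ | ⟨h3, h4⟩
      · rcases h1 with h1 | h1
        · apply h1
          rw [← h3]
          exact h3 ▸ hcm
        · apply h1
          rw [← h4]
          exact h4 ▸ hdm
      · rcases h1 with h1 | h1
        · apply h1
          rw [← h4]
          exact h4 ▸ hdm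
        · apply h1
          rw [← h3]
          exact h3 ▸ hcm
    subst hij
    rw [up_same, up_same]
    exact ⟨iff_of_false (nfst hcd hd false) (nfst hcd hdV' false),
      iff_of_false (nfst hcd hd true) (nfst hcd hdV' true)⟩
  exact β.trans (β.trans s1 s3) s2.symm

end Pool.Agent.MWN.H42.Nco
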